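import Mathlib

/-!
Double Zarankiewicz numbers: the Kovari-Sos-Turan type bound fails.
-/

namespace Pool.Agent.Results.MP_af8792_co.Unbounded

/-- A configuration on the grid `[m] x [n]`: a set `E₁` of 1-edges (cells) and a set `E₂` of
2-edges `(i,j;k,l)`, written `((i,j),(k,l))`, with `i ≠ k` and `j ≠ l`. A 1-edge occupies its own
cell and a 2-edge occupies its two cells; no cell is occupied by two different edges. -/
structure Configuration (m n : ℕ) where
  /-- the 1-edges -/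
  E₁ : Finset (Fin m × Fin n)
  /-- the 2-edges -/
  E₂ : Finset ((Fin m × Fin n) × (Fin m × Fin n))
  rows_ne : ∀ e ∈ E₂, e.1.1 ≠ e.2.1
  cols_ne : ∀ e ∈ E₂, e.1.2 ≠ e.2.2
  disj₁₂ : ∀ e ∈ E₂, e.1 ∉ E₁ ∧ e.2 ∉ E₁
  disj₂₂ : ∀ e ∈ E₂, ∀ f ∈ E₂, e ≠ f → e.1 ≠ f.1 ∧ e.1 ≠ f.2 ∧ e.2 ≠ f.1 ∧ e.2 ≠ f.2

namespace Configuration

variable {m n : ℕ}

/-- A cell is occupied if it is a 1-edge or one of the two cells of a 2-edge. -/
def Occupied (G : Configuration m n) (c : Fin m × Fin n) : Prop :=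
  c ∈ G.E₁ ∨ ∃ e ∈ G.E₂, c = e.1 ∨ c = e.2

/-- `G` contains a generalized `C₄`-cycle: one of the three listed patterns. -/
def HasGeneralizedC4 (G : Configuration m n) : Prop :=
  (∃ (i k : Fin m) (j l : Fin n), i ≠ k ∧ j ≠ l ∧
      (i, j) ∈ G.E₁ ∧ (i, l) ∈ G.E₁ ∧ (k, j) ∈ G.E₁ ∧ (k, l) ∈ G.E₁) ∨
  (∃ (i k : Fin m) (j l : Fin n), ((i, j), (k, l)) ∈ G.E₂ ∧
      G.Occupied (i, l) ∧ G.Occupied (k, j)) ∨
  (∃ (i p k : Fin m) (j q l : Fin n), ((i, j), (p, q)) ∈ G.E₂ ∧
      [(k, l), (k, j), (k, q), (i, l), (p, l)].Nodup ∧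
      ∀ c ∈ [(k, l), (k, j), (k, q), (i, l), (p, l)], G.Occupied c)

/-- The number of edges of a configuration. -/
def size (G : Configuration m n) : ℕ := G.E₁.card + G.E₂.card

end Configuration

/-- The double Zarankiewicz number `z₂(m,n)`: the maximum of `|E₁| + |E₂|` over all
configurations on `[m] x [n]` with no generalized `C₄`-cycle. -/
noncomputable def z₂ (m n : ℕ) : ℕ :=
  sSup {s | ∃ G : Configuration m n, ¬ G.HasGeneralizedC4 ∧ G.size = s}

lemma bddAbove (m n : ℕ) :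
    BddAbove {s | ∃ G : Configuration m n, ¬ G.HasGeneralizedC4 ∧ G.size = s} := by
  refine ⟨Fintype.card (Fin m × Fin n) +
    Fintype.card ((Fin m × Fin n) × (Fin m × Fin n)), ?_⟩
  rintro s ⟨G, -, rfl⟩
  exact Nat.add_le_add (Finset.card_le_univ _) (Finset.card_le_univ _)

/-- The first cell attached to an index pair. -/
def cellA (a : ℕ) (x : Fin a × Fin a) : Fin (2 * a) × Fin (2 * a) :=
  (⟨x.1, by omega⟩, ⟨x.2, by omega⟩)

/-- The second cell attached to an index pair. -/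
def cellB (a : ℕ) (x : Fin a × Fin a) : Fin (2 * a) × Fin (2 * a) :=
  (⟨a + x.1, by omega⟩, ⟨a + x.2, by omega⟩)

/-- The block diagonal configuration. -/
def blockConfig (a : ℕ) : Configuration (2 * a) (2 * a) where
  E₁ := ∅
  E₂ := Finset.univ.image (fun x : Fin a × Fin a => (cellA a x, cellB a x))
  rows_ne := by
    intro e he
    simp only [Finset.mem_image, Finset.mem_univ, true_and] at he
    obtain ⟨x, rfl⟩ := he
    simp only [cellA, cellB, ne_eq, Fin.mk.injEq]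
    omega
  cols_ne := by
    intro e he
    simp only [Finset.mem_image, Finset.mem_univ, true_and] at he
    obtain ⟨x, rfl⟩ := he
    simp only [cellA, cellB, ne_eq, Fin.mk.injEq]
    omega
  disj₁₂ := by
    intro e _
    simp
  disj₂₂ := by
    intro e he f hf hef
    simp only [Finset.mem_image, Finset.mem_univ, true_and] at he hf
    obtain ⟨⟨x, x'⟩, rfl⟩ := he
    obtain ⟨⟨y, y'⟩, rfl⟩ := hf
    have hxy : ¬ (x.1 = y.1 ∧ x'.1 = y'.1) := by
      rintro ⟨h1, h2⟩
      apply hef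
      have h3 : x = y := Fin.ext h1
      have h4 : x' = y' := Fin.ext h2
      rw [h3, h4]
    simp only [cellA, cellB, ne_eq, Prod.mk.injEq, Fin.mk.injEq]
    refine ⟨?_, ?_, ?_, ?_⟩ <;> omega

lemma blockConfig_occupied (a : ℕ) (c : Fin (2 * a) × Fin (2 * a))
    (h : (blockConfig a).Occupied c) : (c.1.1 < a ↔ c.2.1 < a) := by
  rcases h with h | ⟨e, he, h⟩
  · simp [blockConfig] at h
  · simp only [blockConfig, Finset.mem_image, Finset.mem_univ, true_and] at he
    obtain ⟨⟨x, x'⟩, rfl⟩ := he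
    rcases h with rfl | rfl
    · simp [cellA]
    · simp [cellB]

lemma blockConfig_edge (a : ℕ) {i k : Fin (2 * a)} {j l : Fin (2 * a)}
    (h : ((i, j), (k, l)) ∈ (blockConfig a).E₂) : i.1 < a ∧ j.1 < a ∧ ¬ k.1 < a ∧ ¬ l.1 < a := by
  simp only [blockConfig, Finset.mem_image, Finset.mem_univ, true_and] at h
  obtain ⟨⟨x, x'⟩, hx⟩ := h
  simp only [cellA, cellB, Prod.mk.injEq] at hx
  obtain ⟨⟨rfl, rfl⟩, rfl, rfl⟩ := hx
  simp

lemma blockConfig_free (a : ℕ) : ¬ (blockConfig a).HasGeneralizedC4 := by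
  rintro (⟨i, k, j, l, -, -, h, -⟩ | ⟨i, k, j, l, h, h1, -⟩ | ⟨i, p, k, j, q, l, h, -, h1⟩)
  · simp [blockConfig] at h
  · have h2 := blockConfig_edge a h
    have h3 := blockConfig_occupied a _ h1
    simp only at h3
    omega
  · have h2 := blockConfig_edge a h
    have h3 := blockConfig_occupied a _ (h1 (k, j) (by simp))
    have h4 := blockConfig_occupied a _ (h1 (k, q) (by simp))
    simp only at h3 h4
    omega

lemma blockConfig_size (a : ℕ) : (blockConfig a).size = a * a := by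
  unfold Configuration.size blockConfig
  simp only [Finset.card_empty, zero_add]
  rw [Finset.card_image_of_injective]
  · simp
  · rintro ⟨x, x'⟩ ⟨y, y'⟩ h
    simp only [cellA, cellB, Prod.mk.injEq, Fin.mk.injEq] at h
    ext <;> simp <;> omega

/-- There are even `m = n = 2a` with `z₂(m,n) ≥ mn/4`. -/
lemma le_z₂ (a : ℕ) : a * a ≤ z₂ (2 * a) (2 * a) :=
  le_csSup (bddAbove _ _) ⟨blockConfig a, blockConfig_free a, blockConfig_size a⟩

/-- The ratio `z₂(m,n) / (m √n + n)` is unbounded over `m, n ≥ 2`: there is no absolute constant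
`C` with `z₂(m,n) ≤ C (m √n + n)` for all `m, n ≥ 2`. -/
theorem result :
    ¬ ∃ C : ℝ, ∀ m n : ℕ, 2 ≤ m → 2 ≤ n →
      (z₂ m n : ℝ) ≤ C * ((m : ℝ) * Real.sqrt (n : ℝ) + (n : ℝ)) := by
  rintro ⟨C, hC⟩
  -- take m = n = 2 a with a = 2 b^2, so that √n = 2 b
  obtain ⟨b, hb⟩ := exists_nat_gt (max C 1 * 8)
  have hb1 : (8 : ℝ) < b := by
    have := le_max_right C 1
    linarith
  have hb0 : 1 ≤ b := by
    have : (0 : ℝ) < b := by linarith
    exact_mod_cast this
  have h1 := hC (2 * (2 * (b * b))) (2 * (2 * (b * b))) (by nlinarith) (by nlinarith)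
  have h2 := le_z₂ (2 * (b * b))
  have h3 : ((2 * (b * b) * (2 * (b * b)) : ℕ) : ℝ) ≤ (z₂ (2 * (2 * (b * b))) (2 * (2 * (b * b))) : ℝ) := by
    exact_mod_cast h2
  have h4 : Real.sqrt ((2 * (2 * (b * b)) : ℕ) : ℝ) = 2 * b := by
    have : ((2 * (2 * (b * b)) : ℕ) : ℝ) = (2 * (b : ℝ)) ^ 2 := by push_cast; ring
    rw [this, Real.sqrt_sq (by positivity)]
  rw [h4] at h1
  have h5 := h3.trans h1
  push_cast at h5
  have hbpos : (0 : ℝ) < b := by linarith
  have hM : C ≤ max C 1 := le_max_left _ _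
  have hM1 : (1 : ℝ) ≤ max C 1 := le_max_right _ _
  set M := max C 1 with hMdef
  have h6 : C * (2 * (2 * ((b : ℝ) * b)) * (2 * b) + 2 * (2 * (b * b))) ≤
      M * (2 * (2 * ((b : ℝ) * b)) * (2 * b) + 2 * (2 * (b * b))) := by
    apply mul_le_mul_of_nonneg_right hM
    positivity
  have h7 : (b : ℝ) * b * b * b * 4 ≤ M * (12 * (b * b * b)) := by
    have h8 : (b : ℝ) * b ≤ b * b * b := by nlinarith [mul_pos hbpos hbpos]
    have h9 : M * (2 * (2 * ((b : ℝ) * b)) * (2 * b) + 2 * (2 * (b * b))) ≤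
        M * (12 * (b * b * b)) := by
      apply mul_le_mul_of_nonneg_left _ (by linarith)
      nlinarith
    nlinarith
  have h10 : (b : ℝ) * 4 ≤ M * 12 := by
    have hb3 : (0 : ℝ) < b * b * b := by positivity
    by_contra hcon
    rw [not_le] at hcon
    have := mul_lt_mul_of_pos_right hcon hb3
    nlinarith
  nlinarith

end Pool.Agent.Results.MP_af8792_co.Unbounded
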